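import Pool.Agent.H633R4.SP.Ineq

/-!
The one-set inequality `P ^ 2 ≤ P₀ ^ 2 + P' * P` for the fourth root `P = (a ^ 3 / R) ^ (1/4)`.
-/

set_option autoImplicit false

namespace H633R4.SP

theorem D1_nonneg (x Q : ℝ) (hx : 0 ≤ x) (hx1 : x ≤ 1) (hQ : 0 ≤ Q) (hQ1 : Q ≤ 1) :
    0 ≤ D1 x Q := by
  rcases le_total x (1 / 2) with h | h
  · have := poly_lo (2 * x) Q (by linarith) (by linarith) hQ hQ1
    rwa [show 2 * x / 2 = x by ring] at this
  · have := poly_hi (2 * x - 1) Q (by linarith) (by linarith) hQ hQ1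
    rwa [show (1 + (2 * x - 1)) / 2 = x by ring] at this

theorem poly_key {x u Q : ℝ} (hx : 0 < x) (hx1 : x ≤ 1) (hu : 0 < u) (hu1 : u ≤ 1) (hQ : 0 < Q)
    (hQ1 : Q ≤ 1) (h : u ^ 2 * Q = x ^ 3) : (1 - Q / 3) * (1 - u) ^ 4 ≤ (1 - x) ^ 3 := by
  rcases le_total x u with hxu | hxu
  · have h1 : 0 ≤ 1 - u := by linarith
    have h2 : (1 - u) ^ 4 ≤ (1 - u) ^ 3 := by
      have : 0 ≤ (1 - u) ^ 3 := pow_nonneg h1 3
      nlinarith
    have h3 : (1 - u) ^ 3 ≤ (1 - x) ^ 3 := pow_le_pow_left₀ h1 (by linarith) 3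
    have h4 : 0 ≤ (1 - u) ^ 4 := pow_nonneg h1 4
    nlinarith
  · set μ : ℝ := u / x with hμ
    have hμ0 : 0 ≤ μ := by positivity
    have hμ1 : μ ≤ 1 := (div_le_one hx).2 hxu
    have e1 : μ ^ 2 * Q = x := by
      rw [hμ, div_pow, div_mul_eq_mul_div, h]
      field_simp
    have e2 : μ ^ 3 * Q = u := by
      have : μ ^ 3 * Q = μ * (μ ^ 2 * Q) := by ring
      rw [this, e1, hμ]
      field_simp
    have h1 := D1_eq μ Q
    rw [e1, e2] at h1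
    have h2 : 0 ≤ Q * D1 μ Q := mul_nonneg hQ.le (D1_nonneg μ Q hμ0 hμ1 hQ.le hQ1)
    linarith

/-- the fourth root of `a ^ 3 / r` -/
noncomputable def q4 (a r : ℝ) : ℝ := Real.sqrt (Real.sqrt (a ^ 3 / r))

theorem q4_nonneg (a r : ℝ) : 0 ≤ q4 a r := Real.sqrt_nonneg _

theorem q4_pow {a r : ℝ} (ha : 0 ≤ a) (hr : 0 ≤ r) : q4 a r ^ 4 = a ^ 3 / r := by
  unfold q4
  have h : (0 : ℝ) ≤ a ^ 3 / r := by positivity
  have e : Real.sqrt (Real.sqrt (a ^ 3 / r)) ^ 4 = (Real.sqrt (Real.sqrt (a ^ 3 / r)) ^ 2) ^ 2 := by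
    ring
  rw [e, Real.sq_sqrt (Real.sqrt_nonneg _), Real.sq_sqrt h]

theorem q4_pos {a r : ℝ} (ha : 0 < a) (hr : 0 < r) : 0 < q4 a r := by
  unfold q4
  exact Real.sqrt_pos.2 (Real.sqrt_pos.2 (by positivity))

theorem os {a₀ a' R₀ R' ρ : ℝ} (ha₀ : 0 < a₀) (ha' : 0 < a') (hR₀ : 0 < R₀) (hR' : 0 < R')
    (h1 : R₀ ≤ ρ) (h2 : R' + R₀ / 3 ≤ ρ) :
    q4 (a₀ + a') ρ ^ 2 ≤ q4 a₀ R₀ ^ 2 + q4 a' R' * q4 (a₀ + a') ρ := by
  have hρ : 0 < ρ := by linarith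
  have ha : 0 < a₀ + a' := by linarith
  set p := q4 (a₀ + a') ρ with hp
  set p₀ := q4 a₀ R₀ with hp₀
  set p' := q4 a' R' with hp'
  have pp : 0 < p := q4_pos ha hρ
  have pp₀ : 0 < p₀ := q4_pos ha₀ hR₀
  have pp' : 0 < p' := q4_pos ha' hR'
  have e : p ^ 4 = (a₀ + a') ^ 3 / ρ := q4_pow ha.le hρ.le
  have e₀ : p₀ ^ 4 = a₀ ^ 3 / R₀ := q4_pow ha₀.le hR₀.le
  have e' : p' ^ 4 = a' ^ 3 / R' := q4_pow ha'.le hR'.le
  rcases le_total (p ^ 2) (p₀ ^ 2) with hle | hle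
  · have := mul_pos pp' pp
    linarith
  -- normalised variables
  set x : ℝ := a₀ / (a₀ + a') with hx
  set Q : ℝ := R₀ / ρ with hQ
  set u : ℝ := p₀ ^ 2 / p ^ 2 with hu
  set v : ℝ := p' / p with hv
  have hx0 : 0 < x := by positivity
  have hx1 : x ≤ 1 := (div_le_one ha).2 (by linarith)
  have hQ0 : 0 < Q := by positivity
  have hQ1 : Q ≤ 1 := (div_le_one hρ).2 h1
  have hu0 : 0 < u := by positivity
  have hu1 : u ≤ 1 := (div_le_one (by positivity)).2 hle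
  have hv0 : 0 < v := by positivity
  have ex : u ^ 2 * Q = x ^ 3 := by
    rw [hu, hQ, hx, div_pow, ← pow_mul, ← pow_mul, e₀, e]
    field_simp
  have key := poly_key hx0 hx1 hu0 hu1 hQ0 hQ1 ex
  have ev : v ^ 4 * (R' / ρ) = (1 - x) ^ 3 := by
    have : 1 - x = a' / (a₀ + a') := by rw [hx]; field_simp; ring
    rw [this, hv, div_pow, e', e]
    field_simp
  have hs : R' / ρ ≤ 1 - Q / 3 := by
    rw [hQ, div_le_iff₀ hρ]
    have : (1 - R₀ / ρ / 3) * ρ = ρ - R₀ / 3 := by field_simp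
    rw [this]; linarith
  have hq3 : 0 < 1 - Q / 3 := by linarith
  have h3 : (1 - Q / 3) * (1 - u) ^ 4 ≤ (1 - Q / 3) * v ^ 4 := by
    calc (1 - Q / 3) * (1 - u) ^ 4 ≤ (1 - x) ^ 3 := key
      _ = v ^ 4 * (R' / ρ) := ev.symm
      _ ≤ v ^ 4 * (1 - Q / 3) := mul_le_mul_of_nonneg_left hs (by positivity)
      _ = (1 - Q / 3) * v ^ 4 := by ring
  have h4 : (1 - u) ^ 4 ≤ v ^ 4 := le_of_mul_le_mul_left h3 hq3
  have h5 : 1 - u ≤ v := le_of_pow_le_pow_left₀ (by norm_num) hv0.le h4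
  have h6 : p ^ 2 * (1 - u) ≤ p ^ 2 * v := mul_le_mul_of_nonneg_left h5 (by positivity)
  have e6 : p ^ 2 * u = p₀ ^ 2 := by rw [hu]; field_simp
  have e7 : p ^ 2 * v = p' * p := by rw [hv]; field_simp
  nlinarith

/-- the two-set step: both sets split -/
theorem step_two {p p₀ p' q q₀ q' κ M N₀ : ℝ} (hp : 0 < p) (hq : 0 < q) (hp₀ : 0 ≤ p₀)
    (hq₀ : 0 ≤ q₀) (hκ : 0 ≤ κ)
    (h1 : p ^ 2 ≤ p₀ ^ 2 + p' * p) (h2 : q ^ 2 ≤ q₀ ^ 2 + q' * q)
    (h3 : κ * (p₀ * q₀) ≤ N₀) (h4 : κ * (p' * q) ≤ M) (h5 : κ * (p * q') ≤ M)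
    (h6 : 0 ≤ N₀) :
    κ * (p * q) ≤ N₀ + M := by
  -- normalised variables
  set α : ℝ := p₀ / p with hα
  set β : ℝ := q₀ / q with hβ
  have hα0 : 0 ≤ α := by positivity
  have hβ0 : 0 ≤ β := by positivity
  have e1 : 1 ≤ α ^ 2 + p' / p := by
    have : α ^ 2 + p' / p = (p₀ ^ 2 + p' * p) / p ^ 2 := by rw [hα]; field_simp
    rw [this, le_div_iff₀ (by positivity)]; linarith
  have e2 : 1 ≤ β ^ 2 + q' / q := by
    have : β ^ 2 + q' / q = (q₀ ^ 2 + q' * q) / q ^ 2 := by rw [hβ]; field_simp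
    rw [this, le_div_iff₀ (by positivity)]; linarith
  set m : ℝ := max (p' / p) (q' / q) with hm
  have hmM : κ * (p * q) * m ≤ M := by
    rw [hm]
    rcases le_total (p' / p) (q' / q) with h | h
    · rw [max_eq_right h]
      have : κ * (p * q) * (q' / q) = κ * (p * q') := by field_simp
      rw [this]; exact h5
    · rw [max_eq_left h]
      have : κ * (p * q) * (p' / p) = κ * (p' * q) := by field_simp
      rw [this]; exact h4
  have hab : 1 - m ≤ α * β := by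
    rcases le_total 1 m with h | h
    · have := mul_nonneg hα0 hβ0
      linarith
    · have ha : 1 - m ≤ α ^ 2 := by linarith [le_max_left (p' / p) (q' / q)]
      have hb : 1 - m ≤ β ^ 2 := by linarith [le_max_right (p' / p) (q' / q)]
      have h0 : 0 ≤ 1 - m := by linarith
      have : (1 - m) ^ 2 ≤ (α * β) ^ 2 := by
        rw [mul_pow, sq (1 - m)]
        exact mul_le_mul ha hb h0 (by positivity)
      exact le_of_pow_le_pow_left₀ (by norm_num) (mul_nonneg hα0 hβ0) this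
  have hκpq : 0 ≤ κ * (p * q) := by positivity
  have e3 : κ * (p * q) * (α * β) = κ * (p₀ * q₀) := by rw [hα, hβ]; field_simp
  have : κ * (p * q) * (1 - m) ≤ κ * (p * q) * (α * β) := mul_le_mul_of_nonneg_left hab hκpq
  rw [e3] at this
  nlinarith

/-- the two-set step: only one of the sets splits -/
theorem step_one {p q q₀ q' κ N₀ M : ℝ} (hp : 0 ≤ p) (hq : 0 < q) (hq₀ : 0 ≤ q₀) (hq' : 0 ≤ q')
    (hκ : 0 ≤ κ) (h2 : q ^ 2 ≤ q₀ ^ 2 + q' * q)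
    (h3 : κ * (p * q₀) ≤ N₀) (h5 : κ * (p * q') ≤ M) :
    κ * (p * q) ≤ N₀ + M := by
  have h : q ≤ q₀ + q' := by
    rcases le_total q q₀ with h | h
    · linarith
    · have h1 : q₀ ^ 2 ≤ q₀ * q := by rw [sq]; exact mul_le_mul_of_nonneg_left h hq₀
      have h2' : q * q ≤ (q₀ + q') * q := by nlinarith
      exact le_of_mul_le_mul_right h2' hq
  have h6 : κ * p * q ≤ κ * p * (q₀ + q') := mul_le_mul_of_nonneg_left h (by positivity)
  nlinarith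

end H633R4.SP
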