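import Pool.Agent.H633R4.SP.Main

/-!
The sum-product inequality `(|A| |B|) ^ 3 ≤ |A + B| |A B| ^ 4`.
-/

set_option autoImplicit false

namespace H633R4.SP

open Finset
open scoped Pointwise

/-- base case for positive integers -/
theorem base_pos (A B : Finset ℤ) (hA : A.Nonempty) (hB : B.Nonempty)
    (hA0 : ∀ a ∈ A, 0 < a) (hB0 : ∀ b ∈ B, 0 < b)
    (hAe : ∀ a ∈ A, ∀ a' ∈ A, a.natAbs = a'.natAbs)
    (hBe : ∀ b ∈ B, ∀ b' ∈ B, b.natAbs = b'.natAbs) :
    ((A.card : ℝ) * B.card) ^ 3 ≤ 1 * ((A * B).card : ℝ) ^ 4 := by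
  have h1 : A.card ≤ 1 := Finset.card_le_one.2 fun a ha a' ha' => by
    have := hAe a ha a' ha'
    have := hA0 a ha
    have := hA0 a' ha'
    omega
  have h2 : B.card ≤ 1 := Finset.card_le_one.2 fun a ha a' ha' => by
    have := hBe a ha a' ha'
    have := hB0 a ha
    have := hB0 a' ha'
    omega
  have h3 := hA.card_pos
  have h4 := hB.card_pos
  have h5 := (hA.mul hB).card_pos
  have e1 : A.card = 1 := by omega
  have e2 : B.card = 1 := by omega
  have h6 : (1 : ℝ) ≤ ((A * B).card : ℝ) := by exact_mod_cast h5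
  rw [e1, e2]
  have : (1 : ℝ) ≤ ((A * B).card : ℝ) ^ 4 := one_le_pow₀ h6
  norm_num
  exact this

theorem card_le_two {A : Finset ℤ} (hAe : ∀ a ∈ A, ∀ a' ∈ A, a.natAbs = a'.natAbs) :
    A.card ≤ 2 := by
  classical
  rcases A.eq_empty_or_nonempty with h | ⟨a, ha⟩
  · rw [h]; simp
  · have hs : A ⊆ {a, -a} := by
      intro b hb
      have := hAe a ha b hb
      rw [Finset.mem_insert, Finset.mem_singleton]
      omega
    exact (Finset.card_le_card hs).trans (Finset.card_le_two)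

/-- base case for nonzero integers -/
theorem base_ne (A B : Finset ℤ) (hA : A.Nonempty) (hB : B.Nonempty)
    (hA0 : ∀ a ∈ A, a ≠ 0) (hB0 : ∀ b ∈ B, b ≠ 0)
    (hAe : ∀ a ∈ A, ∀ a' ∈ A, a.natAbs = a'.natAbs)
    (hBe : ∀ b ∈ B, ∀ b' ∈ B, b.natAbs = b'.natAbs) :
    ((A.card : ℝ) * B.card) ^ 3 ≤ 4 * ((A * B).card : ℝ) ^ 4 := by
  classical
  have h1 := card_le_two hAe
  have h2 := card_le_two hBe
  have h3 := hA.card_pos
  have h4 := hB.card_pos
  have hAm : A.card ≤ (A * B).card := by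
    obtain ⟨b, hb⟩ := hB
    have : (A.image (fun a => a * b)).card = A.card :=
      Finset.card_image_of_injective _ fun x y hxy => mul_right_cancel₀ (hB0 b hb) hxy
    rw [← this]
    apply Finset.card_le_card
    intro x hx
    obtain ⟨a, ha, rfl⟩ := Finset.mem_image.1 hx
    exact Finset.mul_mem_mul ha hb
  have hBm : B.card ≤ (A * B).card := by
    obtain ⟨a, ha⟩ := hA
    have : (B.image (fun b => a * b)).card = B.card :=
      Finset.card_image_of_injective _ fun x y hxy => mul_left_cancel₀ (hA0 a ha) hxy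
    rw [← this]
    apply Finset.card_le_card
    intro x hx
    obtain ⟨b, hb, rfl⟩ := Finset.mem_image.1 hx
    exact Finset.mul_mem_mul ha hb
  have hN : (A.card * B.card) ^ 3 ≤ 4 * (A * B).card ^ 4 := by
    set a := A.card
    set b := B.card
    set n := (A * B).card
    have ha : a = 1 ∨ a = 2 := by omega
    have hb : b = 1 ∨ b = 2 := by omega
    rcases ha with ha | ha <;> rcases hb with hb | hb
    · rw [ha, hb]
      have : 1 ≤ n := by omega
      have := Nat.pow_le_pow_left this 4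
      omega
    · rw [ha, hb]
      have : 2 ≤ n := by omega
      have := Nat.pow_le_pow_left this 4
      omega
    · rw [ha, hb]
      have : 2 ≤ n := by omega
      have := Nat.pow_le_pow_left this 4
      omega
    · rw [ha, hb]
      have : 2 ≤ n := by omega
      have := Nat.pow_le_pow_left this 4
      omega
  exact_mod_cast hN

theorem fin_gen (X : Set ℤ) (C : ℕ) (hC : 0 < C) (h0 : ∀ x ∈ X, x ≠ 0)
    (hbase : ∀ A B : Finset ℤ, A.Nonempty → B.Nonempty → (∀ a ∈ A, a ∈ X) → (∀ b ∈ B, b ∈ X) →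
      (∀ a ∈ A, ∀ a' ∈ A, a.natAbs = a'.natAbs) → (∀ b ∈ B, ∀ b' ∈ B, b.natAbs = b'.natAbs) →
      ((A.card : ℝ) * B.card) ^ 3 ≤ (C : ℝ) * ((A * B).card : ℝ) ^ 4)
    (A B : Finset ℤ) (hAX : ∀ a ∈ A, a ∈ X) (hBX : ∀ b ∈ B, b ∈ X) :
    (A.card * B.card) ^ 3 ≤ C * ((A + B).card * (A * B).card ^ 4) ∧
    (A.card * B.card) ^ 3 ≤ C * ((A - B).card * (A * B).card ^ 4) := by
  rcases A.eq_empty_or_nonempty with hA | hA
  · subst hA; simp
  rcases B.eq_empty_or_nonempty with hB | hB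
  · subst hB; simp
  have h := main_R X C (by exact_mod_cast hC) h0 hbase A B hA hB hAX hBX
  obtain ⟨h1, h2⟩ := R_mul_le hA hB
  have hC0 : (0 : ℝ) ≤ C := Nat.cast_nonneg _
  have hP : (0 : ℝ) ≤ ((A * B).card : ℝ) ^ 4 := by positivity
  constructor
  · have : ((A.card : ℝ) * B.card) ^ 3 ≤ (C : ℝ) * (((A + B).card : ℝ) * ((A * B).card : ℝ) ^ 4) := by
      calc ((A.card : ℝ) * B.card) ^ 3 ≤ C * (R A * R B) * ((A * B).card : ℝ) ^ 4 := h
        _ ≤ C * ((A + B).card : ℝ) * ((A * B).card : ℝ) ^ 4 :=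
          mul_le_mul_of_nonneg_right (mul_le_mul_of_nonneg_left h1 hC0) hP
        _ = (C : ℝ) * (((A + B).card : ℝ) * ((A * B).card : ℝ) ^ 4) := by ring
    exact_mod_cast this
  · have : ((A.card : ℝ) * B.card) ^ 3 ≤ (C : ℝ) * (((A - B).card : ℝ) * ((A * B).card : ℝ) ^ 4) := by
      calc ((A.card : ℝ) * B.card) ^ 3 ≤ C * (R A * R B) * ((A * B).card : ℝ) ^ 4 := h
        _ ≤ C * ((A - B).card : ℝ) * ((A * B).card : ℝ) ^ 4 :=
          mul_le_mul_of_nonneg_right (mul_le_mul_of_nonneg_left h2 hC0) hP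
        _ = (C : ℝ) * (((A - B).card : ℝ) * ((A * B).card : ℝ) ^ 4) := by ring
    exact_mod_cast this

theorem fin_pos (A B : Finset ℤ) (hA : ∀ a ∈ A, 0 < a) (hB : ∀ b ∈ B, 0 < b) :
    (A.card * B.card) ^ 3 ≤ (A + B).card * (A * B).card ^ 4 ∧
    (A.card * B.card) ^ 3 ≤ (A - B).card * (A * B).card ^ 4 := by
  have := fin_gen {x | 0 < x} 1 one_pos (fun x hx => ne_of_gt hx)
    (fun A B hA hB h1 h2 h3 h4 => by
      have := base_pos A B hA hB h1 h2 h3 h4
      simpa using this) A B hA hB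
  simpa using this

theorem fin_ne (A B : Finset ℤ) (hA : (0 : ℤ) ∉ A) (hB : (0 : ℤ) ∉ B) :
    (A.card * B.card) ^ 3 ≤ 4 * ((A + B).card * (A * B).card ^ 4) ∧
    (A.card * B.card) ^ 3 ≤ 4 * ((A - B).card * (A * B).card ^ 4) :=
  fin_gen {x | x ≠ 0} 4 (by norm_num) (fun x hx => hx)
    (fun A B hA hB h1 h2 h3 h4 => by
      have := base_ne A B hA hB h1 h2 h3 h4
      exact_mod_cast this) A B
    (fun a ha h => hA (h ▸ ha)) (fun b hb h => hB (h ▸ hb))

theorem fin_all (A : Finset ℤ) :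
    A.card ^ 6 ≤ 256 * ((A + A).card * (A * A).card ^ 4) ∧
    A.card ^ 6 ≤ 256 * ((A - A).card * (A * A).card ^ 4) := by
  classical
  obtain ⟨h1, h2⟩ := fin_ne (A.erase 0) (A.erase 0) (Finset.notMem_erase _ _)
    (Finset.notMem_erase _ _)
  have hs : A.erase 0 ⊆ A := Finset.erase_subset _ _
  have hm : (A.erase 0 * A.erase 0).card ≤ (A * A).card :=
    Finset.card_le_card (Finset.mul_subset_mul hs hs)
  have ha : (A.erase 0 + A.erase 0).card ≤ (A + A).card :=
    Finset.card_le_card (Finset.add_subset_add hs hs)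
  have hd : (A.erase 0 - A.erase 0).card ≤ (A - A).card :=
    Finset.card_le_card (Finset.sub_subset_sub hs hs)
  have hc : A.card - 1 ≤ (A.erase 0).card := Finset.pred_card_le_card_erase
  rcases A.eq_empty_or_nonempty with hA | hA
  · subst hA; simp
  have p1 := (hA.add hA).card_pos
  have p2 := (hA.sub hA).card_pos
  have p3 := (hA.mul hA).card_pos
  rcases Nat.eq_zero_or_pos (A.erase 0).card with h0 | h0
  · have hA1 : A.card ≤ 1 := by omega
    have h6 : A.card ^ 6 ≤ 1 := by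
      calc A.card ^ 6 ≤ 1 ^ 6 := Nat.pow_le_pow_left hA1 6
        _ = 1 := by norm_num
    have q1 : 1 ≤ (A + A).card * (A * A).card ^ 4 :=
      Nat.mul_pos p1 (pow_pos p3 4)
    have q2 : 1 ≤ (A - A).card * (A * A).card ^ 4 :=
      Nat.mul_pos p2 (pow_pos p3 4)
    omega
  · have hle : A.card ≤ 2 * (A.erase 0).card := by omega
    have h6 : A.card ^ 6 ≤ 64 * ((A.erase 0).card * (A.erase 0).card) ^ 3 := by
      calc A.card ^ 6 ≤ (2 * (A.erase 0).card) ^ 6 := Nat.pow_le_pow_left hle 6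
        _ = 64 * ((A.erase 0).card * (A.erase 0).card) ^ 3 := by ring
    have m4 := Nat.pow_le_pow_left hm 4
    have q1 := Nat.mul_le_mul ha m4
    have q2 := Nat.mul_le_mul hd m4
    omega

/-- exponent form -/
theorem fin_exp (A : Finset ℤ) (τ : ℝ) (hA : A.Nonempty)
    (h : ((A * A).card : ℝ) ≤ (A.card : ℝ) ^ (1 + τ)) :
    (A.card : ℝ) ^ (2 - 4 * τ) ≤ 256 * ((A + A).card : ℝ) ∧
    (A.card : ℝ) ^ (2 - 4 * τ) ≤ 256 * ((A - A).card : ℝ) := by
  obtain ⟨h1, h2⟩ := fin_all A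
  have hpos : (0 : ℝ) < (A.card : ℝ) := by exact_mod_cast hA.card_pos
  have h4 : ((A * A).card : ℝ) ^ 4 ≤ (A.card : ℝ) ^ (4 + 4 * τ) := by
    calc ((A * A).card : ℝ) ^ 4 ≤ ((A.card : ℝ) ^ (1 + τ)) ^ 4 :=
          pow_le_pow_left₀ (Nat.cast_nonneg _) h 4
      _ = (A.card : ℝ) ^ (4 + 4 * τ) := by
          rw [← Real.rpow_natCast, ← Real.rpow_mul hpos.le]
          congr 1
          push_cast
          ring
  have e : (A.card : ℝ) ^ (6 : ℕ) = (A.card : ℝ) ^ (2 - 4 * τ) * (A.card : ℝ) ^ (4 + 4 * τ) := by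
    rw [← Real.rpow_add hpos, ← Real.rpow_natCast]
    congr 1
    push_cast
    ring
  have hp : (0 : ℝ) < (A.card : ℝ) ^ (4 + 4 * τ) := Real.rpow_pos_of_pos hpos _
  constructor
  · have h1' : (A.card : ℝ) ^ (6 : ℕ) ≤ 256 * (((A + A).card : ℝ) * ((A * A).card : ℝ) ^ 4) := by
      exact_mod_cast h1
    rw [e] at h1'
    have : 256 * (((A + A).card : ℝ) * ((A * A).card : ℝ) ^ 4) ≤
        256 * ((A + A).card : ℝ) * (A.card : ℝ) ^ (4 + 4 * τ) := by
      rw [← mul_assoc]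
      exact mul_le_mul_of_nonneg_left h4 (by positivity)
    exact le_of_mul_le_mul_right (h1'.trans this) hp
  · have h1' : (A.card : ℝ) ^ (6 : ℕ) ≤ 256 * (((A - A).card : ℝ) * ((A * A).card : ℝ) ^ 4) := by
      exact_mod_cast h2
    rw [e] at h1'
    have : 256 * (((A - A).card : ℝ) * ((A * A).card : ℝ) ^ 4) ≤
        256 * ((A - A).card : ℝ) * (A.card : ℝ) ^ (4 + 4 * τ) := by
      rw [← mul_assoc]
      exact mul_le_mul_of_nonneg_left h4 (by positivity)
    exact le_of_mul_le_mul_right (h1'.trans this) hp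

end H633R4.SP
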