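import Mathlib

/-!
The polynomial inequality `(1 - Q / 3) (1 - μ³ Q)⁴ ≤ (1 - μ² Q)³` on the unit square
(Bernstein certificates) and the resulting inequality for fourth roots.
-/

set_option autoImplicit false

namespace H633R4.SP

/-- the quotient of `(1 - μ² Q)³ - (1 - Q / 3) (1 - μ³ Q)⁴` by `Q` -/
noncomputable def D1 (x Q : ℝ) : ℝ :=
  1 / 3 - 3 * x ^ 2 + 4 * x ^ 3 - 4 / 3 * x ^ 3 * Q + 3 * x ^ 4 * Q - 6 * x ^ 6 * Q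
    + x ^ 6 * Q ^ 2 + 4 * x ^ 9 * Q ^ 2 - 4 / 3 * x ^ 9 * Q ^ 3 - x ^ 12 * Q ^ 3
    + 1 / 3 * x ^ 12 * Q ^ 4

theorem D1_eq (x Q : ℝ) :
    (1 - x ^ 2 * Q) ^ 3 - (1 - Q / 3) * (1 - x ^ 3 * Q) ^ 4 = Q * D1 x Q := by
  unfold D1; ring

theorem poly_lo (t Q : ℝ) (ht : 0 ≤ t) (ht1 : t ≤ 1) (hQ : 0 ≤ Q) (hQ1 : Q ≤ 1) :
    0 ≤ D1 (t / 2) Q := by
  have h1 : 0 ≤ 1 - t := by linarith
  have h2 : 0 ≤ 1 - Q := by linarith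
  have e : D1 (t / 2) Q =
      1/3 * (1-t)^12 * (1-Q)^4
      + 4/3 * (1-t)^12 * Q^1 * (1-Q)^3
      + 2 * (1-t)^12 * Q^2 * (1-Q)^2
      + 4/3 * (1-t)^12 * Q^3 * (1-Q)^1
      + 1/3 * (1-t)^12 * Q^4
      + 4 * t^1 * (1-t)^11 * (1-Q)^4
      + 16 * t^1 * (1-t)^11 * Q^1 * (1-Q)^3
      + 24 * t^1 * (1-t)^11 * Q^2 * (1-Q)^2
      + 16 * t^1 * (1-t)^11 * Q^3 * (1-Q)^1
      + 4 * t^1 * (1-t)^11 * Q^4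
      + 85/4 * t^2 * (1-t)^10 * (1-Q)^4
      + 85 * t^2 * (1-t)^10 * Q^1 * (1-Q)^3
      + 255/2 * t^2 * (1-t)^10 * Q^2 * (1-Q)^2
      + 85 * t^2 * (1-t)^10 * Q^3 * (1-Q)^1
      + 85/4 * t^2 * (1-t)^10 * Q^4
      + 199/3 * t^3 * (1-t)^9 * (1-Q)^4
      + 1591/6 * t^3 * (1-t)^9 * Q^1 * (1-Q)^3
      + 795/2 * t^3 * (1-t)^9 * Q^2 * (1-Q)^2
      + 1589/6 * t^3 * (1-t)^9 * Q^3 * (1-Q)^1
      + 397/6 * t^3 * (1-t)^9 * Q^4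
      + 543/4 * t^4 * (1-t)^8 * (1-Q)^4
      + 8667/16 * t^4 * (1-t)^8 * Q^1 * (1-Q)^3
      + 12969/16 * t^4 * (1-t)^8 * Q^2 * (1-Q)^2
      + 8625/16 * t^4 * (1-t)^8 * Q^3 * (1-Q)^1
      + 2151/16 * t^4 * (1-t)^8 * Q^4
      + 192 * t^5 * (1-t)^7 * (1-Q)^4
      + 1527/2 * t^5 * (1-t)^7 * Q^1 * (1-Q)^3
      + 2277/2 * t^5 * (1-t)^7 * Q^2 * (1-Q)^2
      + 1509/2 * t^5 * (1-t)^7 * Q^3 * (1-Q)^1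
      + 375/2 * t^5 * (1-t)^7 * Q^4
      + 385/2 * t^6 * (1-t)^6 * (1-Q)^4
      + 24357/32 * t^6 * (1-t)^6 * Q^1 * (1-Q)^3
      + 72223/64 * t^6 * (1-t)^6 * Q^2 * (1-Q)^2
      + 1487/2 * t^6 * (1-t)^6 * Q^3 * (1-Q)^1
      + 11755/64 * t^6 * (1-t)^6 * Q^4
      + 138 * t^7 * (1-t)^5 * (1-Q)^4
      + 8655/16 * t^7 * (1-t)^5 * Q^1 * (1-Q)^3
      + 25437/32 * t^7 * (1-t)^5 * Q^2 * (1-Q)^2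
      + 519 * t^7 * (1-t)^5 * Q^3 * (1-Q)^1
      + 4065/32 * t^7 * (1-t)^5 * Q^4
      + 141/2 * t^8 * (1-t)^4 * (1-Q)^4
      + 8727/32 * t^8 * (1-t)^4 * Q^1 * (1-Q)^3
      + 25305/64 * t^8 * (1-t)^4 * Q^2 * (1-Q)^2
      + 2037/8 * t^8 * (1-t)^4 * Q^3 * (1-Q)^1
      + 3933/64 * t^8 * (1-t)^4 * Q^4
      + 76/3 * t^9 * (1-t)^3 * (1-Q)^4
      + 2303/24 * t^9 * (1-t)^3 * Q^1 * (1-Q)^3
      + 17433/128 * t^9 * (1-t)^3 * Q^2 * (1-Q)^2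
      + 32965/384 * t^9 * (1-t)^3 * Q^3 * (1-Q)^1
      + 3893/192 * t^9 * (1-t)^3 * Q^4
      + 25/4 * t^10 * (1-t)^2 * (1-Q)^4
      + 731/32 * t^10 * (1-t)^2 * Q^1 * (1-Q)^3
      + 4005/128 * t^10 * (1-t)^2 * Q^2 * (1-Q)^2
      + 2437/128 * t^10 * (1-t)^2 * Q^3 * (1-Q)^1
      + 139/32 * t^10 * (1-t)^2 * Q^4
      + 1 * t^11 * (1-t)^1 * (1-Q)^4
      + 55/16 * t^11 * (1-t)^1 * Q^1 * (1-Q)^3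
      + 567/128 * t^11 * (1-t)^1 * Q^2 * (1-Q)^2
      + 325/128 * t^11 * (1-t)^1 * Q^3 * (1-Q)^1
      + 35/64 * t^11 * (1-t)^1 * Q^4
      + 1/12 * t^12 * (1-Q)^4
      + 25/96 * t^12 * Q^1 * (1-Q)^3
      + 39/128 * t^12 * Q^2 * (1-Q)^2
      + 1949/12288 * t^12 * Q^3 * (1-Q)^1
      + 191/6144 * t^12 * Q^4 := by
    unfold D1; ring
  rw [e]
  positivity

theorem poly_hi (t Q : ℝ) (ht : 0 ≤ t) (ht1 : t ≤ 1) (hQ : 0 ≤ Q) (hQ1 : Q ≤ 1) :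
    0 ≤ D1 ((1 + t) / 2) Q := by
  have h1 : 0 ≤ 1 - t := by linarith
  have h2 : 0 ≤ 1 - Q := by linarith
  have e : D1 ((1 + t) / 2) Q =
      1/12 * (1-t)^12 * (1-Q)^4
      + 25/96 * (1-t)^12 * Q^1 * (1-Q)^3
      + 39/128 * (1-t)^12 * Q^2 * (1-Q)^2
      + 1949/12288 * (1-t)^12 * Q^3 * (1-Q)^1
      + 191/6144 * (1-t)^12 * Q^4
      + 1 * t^1 * (1-t)^11 * (1-Q)^4
      + 45/16 * t^1 * (1-t)^11 * Q^1 * (1-Q)^3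
      + 369/128 * t^1 * (1-t)^11 * Q^2 * (1-Q)^2
      + 649/512 * t^1 * (1-t)^11 * Q^3 * (1-Q)^1
      + 51/256 * t^1 * (1-t)^11 * Q^4
      + 25/4 * t^2 * (1-t)^10 * (1-Q)^4
      + 511/32 * t^2 * (1-t)^10 * Q^1 * (1-Q)^3
      + 1827/128 * t^2 * (1-t)^10 * Q^2 * (1-Q)^2
      + 2587/512 * t^2 * (1-t)^10 * Q^3 * (1-Q)^1
      + 133/256 * t^2 * (1-t)^10 * Q^4
      + 79/3 * t^3 * (1-t)^9 * (1-Q)^4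
      + 63 * t^3 * (1-t)^9 * Q^1 * (1-Q)^3
      + 6567/128 * t^3 * (1-t)^9 * Q^2 * (1-Q)^2
      + 2975/192 * t^3 * (1-t)^9 * Q^3 * (1-Q)^1
      + 1 * t^3 * (1-t)^9 * Q^4
      + 159/2 * t^4 * (1-t)^8 * (1-Q)^4
      + 5835/32 * t^4 * (1-t)^8 * Q^1 * (1-Q)^3
      + 4539/32 * t^4 * (1-t)^8 * Q^2 * (1-Q)^2
      + 10509/256 * t^4 * (1-t)^8 * Q^3 * (1-Q)^1
      + 345/128 * t^4 * (1-t)^8 * Q^4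
      + 174 * t^5 * (1-t)^7 * (1-Q)^4
      + 6153/16 * t^5 * (1-t)^7 * Q^1 * (1-Q)^3
      + 9279/32 * t^5 * (1-t)^7 * Q^2 * (1-Q)^2
      + 1347/16 * t^5 * (1-t)^7 * Q^3 * (1-Q)^1
      + 219/32 * t^5 * (1-t)^7 * Q^4
      + 553/2 * t^6 * (1-t)^6 * (1-Q)^4
      + 18673/32 * t^6 * (1-t)^6 * Q^1 * (1-Q)^3
      + 26947/64 * t^6 * (1-t)^6 * Q^2 * (1-Q)^2
      + 1921/16 * t^6 * (1-t)^6 * Q^3 * (1-Q)^1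
      + 695/64 * t^6 * (1-t)^6 * Q^4
      + 318 * t^7 * (1-t)^5 * (1-Q)^4
      + 5037/8 * t^7 * (1-t)^5 * Q^1 * (1-Q)^3
      + 6759/16 * t^7 * (1-t)^5 * Q^2 * (1-Q)^2
      + 225/2 * t^7 * (1-t)^5 * Q^3 * (1-Q)^1
      + 159/16 * t^7 * (1-t)^5 * Q^4
      + 1047/4 * t^8 * (1-t)^4 * (1-Q)^4
      + 7593/16 * t^8 * (1-t)^4 * Q^1 * (1-Q)^3
      + 2271/8 * t^8 * (1-t)^4 * Q^2 * (1-Q)^2
      + 525/8 * t^8 * (1-t)^4 * Q^3 * (1-Q)^1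
      + 39/8 * t^8 * (1-t)^4 * Q^4
      + 451/3 * t^9 * (1-t)^3 * (1-Q)^4
      + 725/3 * t^9 * (1-t)^3 * Q^1 * (1-Q)^3
      + 121 * t^9 * (1-t)^3 * Q^2 * (1-Q)^2
      + 43/2 * t^9 * (1-t)^3 * Q^3 * (1-Q)^1
      + 1 * t^9 * (1-t)^3 * Q^4
      + 229/4 * t^10 * (1-t)^2 * (1-Q)^4
      + 78 * t^10 * (1-t)^2 * Q^1 * (1-Q)^3
      + 117/4 * t^10 * (1-t)^2 * Q^2 * (1-Q)^2
      + 3 * t^10 * (1-t)^2 * Q^3 * (1-Q)^1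
      + 13 * t^11 * (1-t)^1 * (1-Q)^4
      + 14 * t^11 * (1-t)^1 * Q^1 * (1-Q)^3
      + 3 * t^11 * (1-t)^1 * Q^2 * (1-Q)^2
      + 4/3 * t^12 * (1-Q)^4
      + 1 * t^12 * Q^1 * (1-Q)^3 := by
    unfold D1; ring
  rw [e]
  positivity


end H633R4.SP
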