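import Pool.Agent.H633R4.SP.OS
import Pool.Agent.H633R4.SP.Func

/-!
The main induction: `κ * (P A * P B) ≤ |A * B|`.
-/

set_option autoImplicit false

namespace H633R4.SP

open Finset
open scoped Pointwise

/-- the fourth root of `|A| ^ 3 / R A` -/
noncomputable def P (A : Finset ℤ) : ℝ := q4 (A.card : ℝ) (R A)

theorem P_nonneg (A : Finset ℤ) : 0 ≤ P A := q4_nonneg _ _

theorem P_pos {A : Finset ℤ} (hA : A.Nonempty) : 0 < P A :=
  q4_pos (by exact_mod_cast hA.card_pos) (lt_of_lt_of_le one_pos (one_le_R hA))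

theorem P_pow {A : Finset ℤ} (hA : A.Nonempty) : P A ^ 4 = (A.card : ℝ) ^ 3 / R A :=
  q4_pow (Nat.cast_nonneg _) (le_trans zero_le_one (one_le_R hA))

/-- splitting off the lowest valuation class -/
theorem split (p : ℕ) [Fact p.Prime] (A : Finset ℤ) (hA : A.Nonempty) (h0 : ∀ a ∈ A, a ≠ 0) :
    ∃ k : ℕ, ∃ A₀ A' : Finset ℤ, A₀.Nonempty ∧ A₀ ⊆ A ∧ A' ⊆ A ∧ A₀.card + A'.card = A.card ∧
      (∀ a ∈ A₀, padicValInt p a = k) ∧ (∀ a ∈ A', k < padicValInt p a) ∧
      (∀ a ∈ A, k ≤ padicValInt p a) ∧ (A' = ∅ → A₀ = A) ∧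
      (A'.Nonempty → P A ^ 2 ≤ P A₀ ^ 2 + P A' * P A) := by
  classical
  obtain ⟨a₀, ha₀, hmin⟩ := Finset.exists_min_image A (padicValInt p) hA
  have hne : (A.filter (fun a => padicValInt p a = padicValInt p a₀)).Nonempty :=
    ⟨a₀, Finset.mem_filter.2 ⟨ha₀, rfl⟩⟩
  have hcard : (A.filter (fun a => padicValInt p a = padicValInt p a₀)).card +
      (A.filter (fun a => ¬ padicValInt p a = padicValInt p a₀)).card = A.card :=
    Finset.card_filter_add_card_filter_not (s := A)
      (fun a => padicValInt p a = padicValInt p a₀)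
  refine ⟨padicValInt p a₀, A.filter (fun a => padicValInt p a = padicValInt p a₀),
    A.filter (fun a => ¬ padicValInt p a = padicValInt p a₀),
    hne, Finset.filter_subset _ _, Finset.filter_subset _ _,
    hcard, fun a ha => (Finset.mem_filter.1 ha).2, fun a ha => ?_, hmin, fun h => ?_,
    fun hne' => ?_⟩
  · rw [Finset.mem_filter] at ha
    exact lt_of_le_of_ne (hmin a ha.1) (Ne.symm ha.2)
  · rw [Finset.filter_eq_empty_iff] at h
    rw [Finset.filter_eq_self]
    intro a ha
    have := h ha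
    exact not_not.1 this
  · have hdiv : ∀ a ∈ A, ((p : ℤ) ^ (padicValInt p a₀ + 1) ∣ a ↔
        padicValInt p a₀ + 1 ≤ padicValInt p a) := by
      intro a ha
      rw [padicValInt_dvd_iff]
      constructor
      · rintro (h | h)
        · exact absurd h (h0 a ha)
        · exact h
      · exact fun h => Or.inr h
    have hcomb : R (A.filter (fun a => ¬ padicValInt p a = padicValInt p a₀)) +
        R (A.filter (fun a => padicValInt p a = padicValInt p a₀)) / 3 ≤ R A := by
      apply R_comb hne (Finset.filter_subset _ _) (Finset.filter_subset _ _)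
        (m := (p : ℤ) ^ (padicValInt p a₀ + 1))
      · intro n hn
        rw [Finset.mem_filter] at hn
        rw [hdiv n hn.1]
        omega
      · intro n hn
        rw [Finset.mem_filter] at hn
        rw [hdiv n hn.1]
        have := hmin n hn.1
        omega
    have hsub := R_sub hne (Finset.filter_subset (fun a => padicValInt p a = padicValInt p a₀) A)
    have h := os (a₀ := ((A.filter (fun a => padicValInt p a = padicValInt p a₀)).card : ℝ))
      (a' := ((A.filter (fun a => ¬ padicValInt p a = padicValInt p a₀)).card : ℝ))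
      (by exact_mod_cast hne.card_pos) (by exact_mod_cast hne'.card_pos)
      (lt_of_lt_of_le one_pos (one_le_R hne)) (lt_of_lt_of_le one_pos (one_le_R hne'))
      hsub hcomb
    have e : ((A.filter (fun a => padicValInt p a = padicValInt p a₀)).card : ℝ) +
        ((A.filter (fun a => ¬ padicValInt p a = padicValInt p a₀)).card : ℝ) = (A.card : ℝ) := by
      exact_mod_cast hcard
    rw [e] at h
    exact h

theorem card_split {p : ℕ} {U V W : Finset ℤ} (hU : U ⊆ W) (hV : V ⊆ W) {k : ℕ}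
    (hUk : ∀ u ∈ U, padicValInt p u = k) (hVk : ∀ v ∈ V, k < padicValInt p v) :
    (U.card : ℝ) + (V.card : ℝ) ≤ (W.card : ℝ) := by
  classical
  have hd : Disjoint U V := by
    rw [Finset.disjoint_left]
    intro u hu hv
    have h1 := hUk u hu
    have h2 := hVk u hv
    omega
  have : U.card + V.card ≤ W.card := by
    rw [← Finset.card_union_of_disjoint hd]
    exact Finset.card_le_card (Finset.union_subset hU hV)
  exact_mod_cast this

theorem natAbs_eq_of_padic {a b : ℤ} (ha : a ≠ 0) (hb : b ≠ 0)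
    (h : ∀ p : ℕ, p.Prime → padicValInt p a = padicValInt p b) : a.natAbs = b.natAbs := by
  rw [Nat.eq_iff_prime_padicValNat_eq _ _ (Int.natAbs_ne_zero.2 ha) (Int.natAbs_ne_zero.2 hb)]
  intro p hp
  exact h p hp

theorem main (X : Set ℤ) (κ : ℝ) (hκ : 0 ≤ κ) (h0 : ∀ x ∈ X, x ≠ 0)
    (hbase : ∀ A B : Finset ℤ, A.Nonempty → B.Nonempty → (∀ a ∈ A, a ∈ X) → (∀ b ∈ B, b ∈ X) →
      (∀ a ∈ A, ∀ a' ∈ A, a.natAbs = a'.natAbs) → (∀ b ∈ B, ∀ b' ∈ B, b.natAbs = b'.natAbs) →
      κ * (P A * P B) ≤ ((A * B).card : ℝ)) :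
    ∀ n : ℕ, ∀ A B : Finset ℤ, A.card + B.card ≤ n → A.Nonempty → B.Nonempty →
      (∀ a ∈ A, a ∈ X) → (∀ b ∈ B, b ∈ X) → κ * (P A * P B) ≤ ((A * B).card : ℝ) := by
  intro n
  induction n with
  | zero =>
    intro A B hn hA _ _ _
    have := hA.card_pos
    omega
  | succ n ih =>
    intro A B hn hA hB hAX hBX
    by_cases hcase : ∀ p : ℕ, p.Prime → (∀ a ∈ A, ∀ a' ∈ A, padicValInt p a = padicValInt p a') ∧
        (∀ b ∈ B, ∀ b' ∈ B, padicValInt p b = padicValInt p b')
    · apply hbase A B hA hB hAX hBX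
      · intro a ha a' ha'
        exact natAbs_eq_of_padic (h0 _ (hAX a ha)) (h0 _ (hAX a' ha'))
          fun p hp => (hcase p hp).1 a ha a' ha'
      · intro b hb b' hb'
        exact natAbs_eq_of_padic (h0 _ (hBX b hb)) (h0 _ (hBX b' hb'))
          fun p hp => (hcase p hp).2 b hb b' hb'
    · simp only [not_forall] at hcase
      obtain ⟨p, hp, hnc⟩ := hcase
      haveI : Fact p.Prime := ⟨hp⟩
      obtain ⟨k, A₀, A', hA₀, hA₀A, hA'A, hcA, hvA₀, hvA', hvA, heA, hOSA⟩ :=
        split p A hA fun a ha => h0 a (hAX a ha)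
      obtain ⟨l, B₀, B', hB₀, hB₀B, hB'B, hcB, hvB₀, hvB', hvB, heB, hOSB⟩ :=
        split p B hB fun b hb => h0 b (hBX b hb)
      have hcA₀ := hA₀.card_pos
      have hcB₀ := hB₀.card_pos
      -- valuations of products
      have hv : ∀ a ∈ A, ∀ b ∈ B, padicValInt p (a * b) = padicValInt p a + padicValInt p b :=
        fun a ha b hb => padicValInt.mul (h0 a (hAX a ha)) (h0 b (hBX b hb))
      have hv0 : ∀ u ∈ A₀ * B₀, padicValInt p u = k + l := by
        intro u hu
        obtain ⟨a, ha, b, hb, rfl⟩ := Finset.mem_mul.1 hu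
        rw [hv a (hA₀A ha) b (hB₀B hb), hvA₀ a ha, hvB₀ b hb]
      have hv1 : ∀ u ∈ A' * B, k + l < padicValInt p u := by
        intro u hu
        obtain ⟨a, ha, b, hb, rfl⟩ := Finset.mem_mul.1 hu
        rw [hv a (hA'A ha) b hb]
        have h1 := hvA' a ha
        have h2 := hvB b hb
        omega
      have hv2 : ∀ u ∈ A * B', k + l < padicValInt p u := by
        intro u hu
        obtain ⟨a, ha, b, hb, rfl⟩ := Finset.mem_mul.1 hu
        rw [hv a ha b (hB'B hb)]
        have h1 := hvA a ha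
        have h2 := hvB' b hb
        omega
      have hs0 : A₀ * B₀ ⊆ A * B := Finset.mul_subset_mul hA₀A hB₀B
      have hs1 : A' * B ⊆ A * B := Finset.mul_subset_mul hA'A subset_rfl
      have hs2 : A * B' ⊆ A * B := Finset.mul_subset_mul subset_rfl hB'B
      have hc1 := card_split hs0 hs1 hv0 hv1
      have hc2 := card_split hs0 hs2 hv0 hv2
      have hXA₀ : ∀ a ∈ A₀, a ∈ X := fun a ha => hAX a (hA₀A ha)
      have hXA' : ∀ a ∈ A', a ∈ X := fun a ha => hAX a (hA'A ha)
      have hXB₀ : ∀ b ∈ B₀, b ∈ X := fun b hb => hBX b (hB₀B hb)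
      have hXB' : ∀ b ∈ B', b ∈ X := fun b hb => hBX b (hB'B hb)
      rcases A'.eq_empty_or_nonempty with hA' | hA'
      · have hA₀e := heA hA'
        rcases B'.eq_empty_or_nonempty with hB' | hB'
        · exfalso
          have hB₀e := heB hB'
          apply hnc
          constructor
          · intro a ha a' ha'
            rw [hvA₀ a (hA₀e ▸ ha), hvA₀ a' (hA₀e ▸ ha')]
          · intro b hb b' hb'
            rw [hvB₀ b (hB₀e ▸ hb), hvB₀ b' (hB₀e ▸ hb')]
        · -- only `B` splits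
          have hcB' := hB'.card_pos
          rw [hA₀e] at hc2
          have ih1 := ih A B₀ (by omega) hA hB₀ hAX hXB₀
          have ih2 := ih A B' (by omega) hA hB' hAX hXB'
          have := step_one (P_nonneg A) (P_pos hB) (P_nonneg B₀) (P_nonneg B') hκ (hOSB hB')
            ih1 ih2
          linarith
      · have hcA' := hA'.card_pos
        rcases B'.eq_empty_or_nonempty with hB' | hB'
        · -- only `A` splits
          have hB₀e := heB hB'
          rw [hB₀e] at hc1
          have ih1 := ih A₀ B (by omega) hA₀ hB hXA₀ hBX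
          have ih2 := ih A' B (by omega) hA' hB hXA' hBX
          rw [mul_comm (P A₀)] at ih1
          rw [mul_comm (P A')] at ih2
          have := step_one (P_nonneg B) (P_pos hA) (P_nonneg A₀) (P_nonneg A') hκ (hOSA hA')
            ih1 ih2
          rw [mul_comm (P A)]
          linarith
        · have hcB' := hB'.card_pos
          have ih0 := ih A₀ B₀ (by omega) hA₀ hB₀ hXA₀ hXB₀
          have ih1 := ih A' B (by omega) hA' hB hXA' hBX
          have ih2 := ih A B' (by omega) hA hB' hAX hXB'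
          have := step_two (N₀ := ((A₀ * B₀).card : ℝ))
            (M := ((A * B).card : ℝ) - ((A₀ * B₀).card : ℝ))
            (P_pos hA) (P_pos hB) (P_nonneg A₀) (P_nonneg B₀) hκ
            (hOSA hA') (hOSB hB') ih0 (by linarith) (by linarith) (Nat.cast_nonneg _)
          linarith

/-- the energy form of the main theorem -/
theorem main_R (X : Set ℤ) (C : ℝ) (hC : 0 < C) (h0 : ∀ x ∈ X, x ≠ 0)
    (hbase : ∀ A B : Finset ℤ, A.Nonempty → B.Nonempty → (∀ a ∈ A, a ∈ X) → (∀ b ∈ B, b ∈ X) →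
      (∀ a ∈ A, ∀ a' ∈ A, a.natAbs = a'.natAbs) → (∀ b ∈ B, ∀ b' ∈ B, b.natAbs = b'.natAbs) →
      ((A.card : ℝ) * B.card) ^ 3 ≤ C * ((A * B).card : ℝ) ^ 4)
    (A B : Finset ℤ) (hA : A.Nonempty) (hB : B.Nonempty) (hAX : ∀ a ∈ A, a ∈ X)
    (hBX : ∀ b ∈ B, b ∈ X) :
    ((A.card : ℝ) * B.card) ^ 3 ≤ C * (R A * R B) * ((A * B).card : ℝ) ^ 4 := by
  set κ : ℝ := Real.sqrt (Real.sqrt (1 / C)) with hκdef
  have hκ : 0 ≤ κ := Real.sqrt_nonneg _
  have hκ4 : κ ^ 4 = 1 / C := by
    have e : κ ^ 4 = (κ ^ 2) ^ 2 := by ring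
    rw [e, hκdef, Real.sq_sqrt (Real.sqrt_nonneg _), Real.sq_sqrt (by positivity)]
  have key : ∀ A B : Finset ℤ, A.Nonempty → B.Nonempty →
      (κ * (P A * P B)) ^ 4 = 1 / C * (((A.card : ℝ) * B.card) ^ 3 / (R A * R B)) := by
    intro A B hA hB
    rw [mul_pow, mul_pow, hκ4, P_pow hA, P_pow hB, mul_pow, div_mul_div_comm]
  have h := main X κ hκ h0 (by
    intro A B hA hB hAX hBX ha hb
    have h1 := hbase A B hA hB hAX hBX ha hb
    have hRA := one_le_R hA
    have hRB := one_le_R hB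
    apply le_of_pow_le_pow_left₀ (n := 4) (by norm_num) (Nat.cast_nonneg _)
    rw [key A B hA hB]
    have hRR : 1 ≤ R A * R B := by nlinarith
    have h2 : ((A.card : ℝ) * B.card) ^ 3 / (R A * R B) ≤ ((A.card : ℝ) * B.card) ^ 3 :=
      div_le_self (by positivity) hRR
    calc 1 / C * (((A.card : ℝ) * B.card) ^ 3 / (R A * R B))
        ≤ 1 / C * (C * ((A * B).card : ℝ) ^ 4) :=
          mul_le_mul_of_nonneg_left (h2.trans h1) (by positivity)
      _ = ((A * B).card : ℝ) ^ 4 := by field_simp) (A.card + B.card) A B le_rfl hA hB hAX hBX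
  have h1 := pow_le_pow_left₀ (mul_nonneg hκ (mul_nonneg (P_nonneg A) (P_nonneg B))) h 4
  rw [key A B hA hB] at h1
  have hRA := one_le_R hA
  have hRB := one_le_R hB
  have hRR : 0 < R A * R B := by nlinarith
  have e : 1 / C * (((A.card : ℝ) * B.card) ^ 3 / (R A * R B)) =
      ((A.card : ℝ) * B.card) ^ 3 / (C * (R A * R B)) := by
    field_simp
  rw [e, div_le_iff₀ (by positivity)] at h1
  linarith

end H633R4.SP
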